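import Pool.Agent.H37.CND.Stmts

/-!
# Row UPA of the board `cnd`
-/

set_option autoImplicit false

namespace Pool.CND

theorem upa_thm (hWLD : S_WLD) (hUMW : S_UMW) (hHBP : S_HBP) (hSYG : S_SYG) (hIND : S_IND)
    (hCON : S_CON) : S_UPA := by
  intro p k G _ _ _ A d m hp hchar hEA hm hG c hc
  have : Fact p.Prime := ⟨hp⟩
  let iF : Fintype G := Fintype.ofFinite G
  obtain ⟨L, fL, aL, ρ, t, hcov, P, -, hP⟩ := hc
  obtain ⟨W, I, hW, hI, -, ⟨n, hn⟩, m1, hm1, hcI⟩ := hWLD p k L G P ρ hp hchar hcov.inj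
  have hUM := hUMW k L G P ρ W hcov.inj hW
  have hHB := hHBP p k L G P ρ W hp hchar hcov.inj hW
  obtain ⟨A', d', hA'W, hdd, hEA', hcW⟩ := hSYG p G A W d m hp hEA hm hG ⟨n, hn⟩
  rcases hCON k L G P ρ W I c hcov.inj hW hI hP with h0 | ⟨l, hl, hc⟩
  · subst h0
    exact ⟨⟨0, by simp⟩, fun _ _ => ⟨0, by simp⟩⟩
  obtain ⟨⟨z1, hz1⟩, hz2⟩ := hIND p G (fun g => P.b (ρ g)) W A' d' l hp hUM hHB ⟨n, hn⟩ hA'W
    hEA' hcW hl
  have hWpos : 0 < Nat.card W := Nat.card_pos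
  have hU : (m1 : ℚ) * c = U (fun g => P.b (ρ g)) W l := by
    have hW0 : (Nat.card W : ℚ) ≠ 0 := by exact_mod_cast hWpos.ne'
    apply mul_left_cancel₀ hW0
    rw [← hc, hcI]
    push_cast
    ring
  -- `m1` divides `m`
  have hAp : IsPGroup p A := by
    intro a
    refine ⟨1, ?_⟩
    rw [pow_one]
    exact Subtype.ext (by simpa using hEA.1 a a.2)
  obtain ⟨a, ha⟩ := IsPGroup.iff_card.1 hAp
  have hdvd : m1 ∣ m := by
    have h1 : m1 ∣ Nat.card G :=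
      (Dvd.intro _ hcI.symm).trans I.card_subgroup_dvd_card
    rw [hG, ha, ← pow_add] at h1
    exact (Nat.Coprime.pow_right _ ((Nat.Prime.coprime_iff_not_dvd hp).2 hm1).symm).dvd_of_dvd_mul_left
      h1
  obtain ⟨m2, hm2⟩ := hdvd
  have key : ∀ N : ℕ, ((N * m : ℕ) : ℚ) * c = (m2 : ℚ) * ((N : ℚ) *
      U (fun g => P.b (ρ g)) W l) := by
    intro N
    rw [← hU, hm2]
    push_cast
    ring
  constructor
  · refine ⟨m2 * (p ^ (d - d') * z1), ?_⟩
    rw [key (p ^ d)]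
    push_cast
    rw [← hz1, show d = (d - d') + d' by omega, pow_add]
    simp only [Nat.add_sub_cancel]
    ring
  · intro hp2 hd
    rcases Nat.eq_zero_or_pos d' with h0 | h0
    · refine ⟨m2 * (2 ^ (d - 1) * z1), ?_⟩
      rw [key (2 ^ (d - 1))]
      push_cast
      rw [← hz1, h0, pow_zero]
      ring
    · obtain ⟨z2, hz2⟩ := hz2 hp2 h0
      refine ⟨m2 * (2 ^ (d - d') * z2), ?_⟩
      rw [key (2 ^ (d - 1))]
      push_cast
      rw [← hz2, show d - 1 = (d - d') + (d' - 1) by omega, pow_add]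
      ring

end Pool.CND
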